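import Mathlib

set_option autoImplicit false

namespace Pool.Agent.H119R2.Lower

/-- One Cole–Vishkin step on a pair of numbers. -/
def enc (a b : ℕ) : ℕ := 2 * Nat.log2 (a ^^^ b) + (a.testBit (Nat.log2 (a ^^^ b))).toNat

lemma enc_lt {a b m : ℕ} (hab : a ≠ b) (ha : a < 2 ^ m) (hb : b < 2 ^ m) : enc a b < 2 * m := by
  have hx : a ^^^ b ≠ 0 := by
    intro h
    exact hab (Nat.xor_eq_zero_iff.1 h)
  have h1 : a ^^^ b < 2 ^ m := Nat.xor_lt_two_pow ha hb
  have h2 : Nat.log2 (a ^^^ b) < m := (Nat.log2_lt hx).2 h1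
  have h3 : (a.testBit (Nat.log2 (a ^^^ b))).toNat ≤ 1 := Bool.toNat_le _
  unfold enc
  omega

lemma enc_ne {a b c : ℕ} (hab : a ≠ b) (hbc : b ≠ c) : enc a b ≠ enc b c := by
  have hx : a ^^^ b ≠ 0 := fun h => hab (Nat.xor_eq_zero_iff.1 h)
  intro h
  unfold enc at h
  have h3 : (a.testBit (Nat.log2 (a ^^^ b))).toNat ≤ 1 := Bool.toNat_le _
  have h4 : (b.testBit (Nat.log2 (b ^^^ c))).toNat ≤ 1 := Bool.toNat_le _
  have hd : Nat.log2 (a ^^^ b) = Nat.log2 (b ^^^ c) := by omega
  have hb : (a.testBit (Nat.log2 (a ^^^ b))).toNat = (b.testBit (Nat.log2 (b ^^^ c))).toNat := by omega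
  rw [← hd] at hb
  have h5 : (a ^^^ b).testBit (Nat.log2 (a ^^^ b)) = true := Nat.testBit_log2 hx
  rw [Nat.testBit_xor] at h5
  revert hb h5
  cases a.testBit (Nat.log2 (a ^^^ b)) <;> cases b.testBit (Nat.log2 (a ^^^ b)) <;> simp

/-- One step on sequences. -/
def step (x : ℤ → ℕ) : ℤ → ℕ := fun t => enc (x t) (x (t + 1))

/-- iterated colouring -/
def col : ℕ → (ℤ → ℕ) → (ℤ → ℕ)
  | 0, x => x
  | (j + 1), x => col j (step x)

/-- number of labels that `j` rounds reduce to `8`. -/
def u : ℕ → ℕ
  | 0 => 8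
  | (j + 1) => 2 ^ (u j / 2)

lemma col_spec (j : ℕ) : ∀ (x : ℤ → ℕ) (i : ℤ),
    (∀ t, i ≤ t → t ≤ i + j + 1 → x t < u j) →
    (∀ t, i ≤ t → t ≤ i + j → x t ≠ x (t + 1)) →
    col j x i < 8 ∧ col j x (i + 1) < 8 ∧ col j x i ≠ col j x (i + 1) := by
  induction j with
  | zero =>
    intro x i h1 h2
    refine ⟨?_, ?_, ?_⟩
    · have := h1 i le_rfl (by simp)
      simpa [u, col] using this
    · have := h1 (i + 1) (by omega) (by simp)
      simpa [u, col] using this
    · exact h2 i le_rfl (by simp)
  | succ j ih =>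
    intro x i h1 h2
    have := ih (step x) i ?_ ?_
    · exact this
    · intro t ht1 ht2
      have ha : x t < 2 ^ (u j / 2) := h1 t ht1 (by push_cast; omega)
      have hb : x (t + 1) < 2 ^ (u j / 2) := h1 (t + 1) (by omega) (by push_cast; omega)
      have hne : x t ≠ x (t + 1) := h2 t ht1 (by push_cast; omega)
      have := enc_lt hne ha hb
      show enc (x t) (x (t + 1)) < u j
      omega
    · intro t ht1 ht2
      have hne : x t ≠ x (t + 1) := h2 t ht1 (by push_cast; omega)
      have hne2 : x (t + 1) ≠ x (t + 1 + 1) := h2 (t + 1) (by omega) (by push_cast; omega)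
      exact enc_ne hne hne2

lemma col_local (j : ℕ) : ∀ (x y : ℤ → ℕ) (i i' : ℤ),
    (∀ s : ℤ, 0 ≤ s → s ≤ j → x (i + s) = y (i' + s)) → col j x i = col j y i' := by
  induction j with
  | zero =>
    intro x y i i' h
    have := h 0 le_rfl (by simp)
    simpa [col] using this
  | succ j ih =>
    intro x y i i' h
    apply ih
    intro s hs1 hs2
    show enc (x (i + s)) (x (i + s + 1)) = enc (y (i' + s)) (y (i' + s + 1))
    rw [h s hs1 (by push_cast; omega)]
    have := h (s + 1) (by omega) (by push_cast; omega)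
    rw [add_assoc, this, add_assoc]

/-- Greedy maximal independent set on the line, colours processed in increasing order. -/
def inM : ℕ → (ℤ → ℕ) → ℤ → Bool
  | 0, _, _ => true
  | (r + 1), p, t => !(decide (p (t - 1) < p t) && inM r p (t - 1)) &&
      !(decide (p (t + 1) < p t) && inM r p (t + 1))

lemma inM_stable (p : ℤ → ℕ) : ∀ (r : ℕ) (t : ℤ), p t < r → inM r p t = inM (r + 1) p t := by
  intro r
  induction r with
  | zero => intro t h; omega
  | succ r ih =>
    intro t h
    have e1 : (decide (p (t - 1) < p t) && inM r p (t - 1)) =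
        (decide (p (t - 1) < p t) && inM (r + 1) p (t - 1)) := by
      by_cases h1 : p (t - 1) < p t
      · rw [ih (t - 1) (by omega)]
      · simp [h1]
    have e2 : (decide (p (t + 1) < p t) && inM r p (t + 1)) =
        (decide (p (t + 1) < p t) && inM (r + 1) p (t + 1)) := by
      by_cases h1 : p (t + 1) < p t
      · rw [ih (t + 1) (by omega)]
      · simp [h1]
    show (!(decide (p (t - 1) < p t) && inM r p (t - 1)) &&
      !(decide (p (t + 1) < p t) && inM r p (t + 1))) = _
    rw [e1, e2]
    rfl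

lemma inM_local : ∀ (r : ℕ) (p q : ℤ → ℕ) (t t' : ℤ),
    (∀ s : ℤ, -r ≤ s → s ≤ r → p (t + s) = q (t' + s)) → inM r p t = inM r q t' := by
  intro r
  induction r with
  | zero => intros; rfl
  | succ r ih =>
    intro p q t t' h
    have h0 : p t = q t' := by simpa using h 0 (by push_cast; omega) (by push_cast; omega)
    have hm : p (t - 1) = q (t' - 1) := by
      have := h (-1) (by push_cast; omega) (by push_cast; omega)
      simpa [sub_eq_add_neg] using this
    have hp : p (t + 1) = q (t' + 1) := h 1 (by push_cast; omega) (by push_cast; omega)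
    have i1 : inM r p (t - 1) = inM r q (t' - 1) := by
      apply ih
      intro s hs1 hs2
      have := h (s - 1) (by push_cast; omega) (by push_cast; omega)
      have e1 : t - 1 + s = t + (s - 1) := by ring
      have e2 : t' - 1 + s = t' + (s - 1) := by ring
      rw [e1, e2, this]
    have i2 : inM r p (t + 1) = inM r q (t' + 1) := by
      apply ih
      intro s hs1 hs2
      have := h (s + 1) (by push_cast; omega) (by push_cast; omega)
      have e1 : t + 1 + s = t + (s + 1) := by ring
      have e2 : t' + 1 + s = t' + (s + 1) := by ring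
      rw [e1, e2, this]
    show (!(decide (p (t - 1) < p t) && inM r p (t - 1)) &&
      !(decide (p (t + 1) < p t) && inM r p (t + 1))) =
      (!(decide (q (t' - 1) < q t') && inM r q (t' - 1)) &&
      !(decide (q (t' + 1) < q t') && inM r q (t' + 1)))
    rw [h0, hm, hp, i1, i2]

/-- the four states: `0 = o` (in the set), `1 = b₁`, `2 = b₂`, `3 = c`. -/
def st (l m r : Bool) : Fin 4 :=
  if m then 0 else if l then (if r then 3 else 1) else 2

def stateP (p : ℤ → ℕ) (t : ℤ) : Fin 4 := st (inM 8 p (t - 1)) (inM 8 p t) (inM 8 p (t + 1))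

/-- the allowed transitions -/
def Edge (a b : Fin 4) : Bool :=
  (a == 0 && b == 1) || (a == 1 && b == 2) || (a == 2 && b == 0) || (a == 0 && b == 3) ||
    (a == 3 && b == 0)

lemma inM_eq (p : ℤ → ℕ) (t : ℤ) (h : p t < 8) :
    inM 8 p t = (!(decide (p (t - 1) < p t) && inM 8 p (t - 1)) &&
      !(decide (p (t + 1) < p t) && inM 8 p (t + 1))) := by
  rw [inM_stable p 8 t h]
  rfl

lemma stateP_edge (p : ℤ → ℕ) (t : ℤ) (h1 : p t < 8) (h2 : p (t + 1) < 8)
    (h3 : p t ≠ p (t + 1)) : Edge (stateP p t) (stateP p (t + 1)) = true := by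
  have e1 := inM_eq p t h1
  have e2 := inM_eq p (t + 1) h2
  have s1 : t + 1 - 1 = t := by ring
  rw [s1] at e2
  unfold stateP
  rw [s1]
  generalize inM 8 p (t - 1) = A at *
  generalize inM 8 p t = B at *
  generalize inM 8 p (t + 1) = C at *
  generalize inM 8 p (t + 1 + 1) = D at *
  rcases lt_or_gt_of_ne h3 with h | h
  · have n1 : ¬ (p (t + 1) < p t) := by omega
    simp only [h, n1, decide_true, decide_false, Bool.true_and, Bool.false_and, Bool.not_false,
      Bool.and_true] at e1 e2
    generalize decide (p (t - 1) < p t) = X at *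
    generalize decide (p (t + 1 + 1) < p (t + 1)) = Y at *
    revert e1 e2
    revert A B C D X Y
    decide
  · have n1 : ¬ (p t < p (t + 1)) := by omega
    have h' : p (t + 1) < p t := h
    simp only [h', n1, decide_true, decide_false, Bool.true_and, Bool.false_and, Bool.not_false,
      Bool.true_and] at e1 e2
    generalize decide (p (t - 1) < p t) = X at *
    generalize decide (p (t + 1 + 1) < p (t + 1)) = Y at *
    revert e1 e2
    revert A B C D X Y
    decide

/-- state of a sequence at position `i` (using `j` rounds) -/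
def state (j : ℕ) (x : ℤ → ℕ) (i : ℤ) : Fin 4 := stateP (col j x) i

lemma state_edge (j : ℕ) (x : ℤ → ℕ) (i : ℤ)
    (h1 : ∀ t, i ≤ t → t ≤ i + j + 1 → x t < u j)
    (h2 : ∀ t, i ≤ t → t ≤ i + j → x t ≠ x (t + 1)) :
    Edge (state j x i) (state j x (i + 1)) = true := by
  obtain ⟨a, b, c⟩ := col_spec j x i h1 h2
  exact stateP_edge _ _ a b c

lemma state_local (j : ℕ) (x y : ℤ → ℕ) (i i' : ℤ)
    (h : ∀ s : ℤ, -9 ≤ s → s ≤ 9 + j → x (i + s) = y (i' + s)) :
    state j x i = state j y i' := by
  have hc : ∀ s : ℤ, -9 ≤ s → s ≤ 9 → col j x (i + s) = col j y (i' + s) := by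
    intro s hs1 hs2
    apply col_local
    intro r hr1 hr2
    have := h (s + r) (by omega) (by omega)
    rw [add_assoc, this, add_assoc]
  have hM : ∀ a : ℤ, -1 ≤ a → a ≤ 1 → inM 8 (col j x) (i + a) = inM 8 (col j y) (i' + a) := by
    intro a ha1 ha2
    apply inM_local
    intro s hs1 hs2
    have := hc (a + s) (by push_cast at hs1; omega) (by push_cast at hs2; omega)
    rw [add_assoc, this, add_assoc]
  unfold state stateP
  have e0 : inM 8 (col j x) i = inM 8 (col j y) i' := by
    simpa using hM 0 (by omega) (by omega)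
  have e1 := hM 1 (by omega) (by omega)
  have e2 : inM 8 (col j x) (i - 1) = inM 8 (col j y) (i' - 1) := by
    simpa [sub_eq_add_neg] using hM (-1) (by omega) (by omega)
  rw [e0, e1, e2]

/-- The 4 × 4 matrix. -/
def F (a b : Fin 4) : Bool :=
  (a == 0 && (b == 1 || b == 3)) || (a == 1 && b == 0) || (a == 2 && (b == 2 || b == 3)) ||
    (a == 3 && (b == 0 || b == 2))

lemma F_spec : ∀ a a' b b' : Fin 4, Edge a a' = true → Edge b' b = true →
    ¬ (F a b = F a' b ∧ F a b = F a b') := by decide

end Pool.Agent.H119R2.Lower
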