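import Mathlib
import Pool.Agent.H119R2.Lower

set_option autoImplicit false

namespace Pool.Agent.H119R2.Lower

/-- extend a finite sequence to `ℤ` by `0`. -/
def seqF {n k : ℕ} (e : Fin k → Fin n) : ℤ → ℕ := fun i =>
  if hi : 0 ≤ i ∧ i < k then ((e ⟨i.toNat, by omega⟩ : Fin n) : ℕ) else 0

lemma seqF_of {n k : ℕ} (e : Fin k → Fin n) (i : ℤ) (h0 : 0 ≤ i) (h1 : i < k) :
    seqF e i = ((e ⟨i.toNat, by omega⟩ : Fin n) : ℕ) := by
  unfold seqF
  rw [dif_pos ⟨h0, h1⟩]

lemma seqF_succAbove {n k : ℕ} (e : Fin (k + 1) → Fin n) (m : Fin (k + 1)) (i : ℤ)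
    (h0 : 0 ≤ i) (h1 : i < k) :
    seqF (e ∘ m.succAbove) i = if i < (m : ℕ) then seqF e i else seqF e (i + 1) := by
  rw [seqF_of _ i h0 h1]
  by_cases h : i < (m : ℕ)
  · rw [if_pos h, seqF_of _ i h0 (by push_cast; omega)]
    simp only [Function.comp]
    congr 2
    rw [Fin.succAbove_of_castSucc_lt]
    · rfl
    · rw [Fin.lt_def]
      simp
      omega
  · rw [if_neg h, seqF_of _ (i + 1) (by omega) (by push_cast; omega)]
    simp only [Function.comp]
    congr 2
    rw [Fin.succAbove_of_le_castSucc]
    · ext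
      simp
      omega
    · rw [Fin.le_def]
      simp
      omega

/-- the colouring of the `k`-subsets of `Fin n` -/
noncomputable def colour (j n k : ℕ) (Y : Finset (Fin n)) : Bool :=
  if h : Y.card = k then
    F (state j (seqF (Y.orderEmbOfFin h)) 9) (state j (seqF (Y.orderEmbOfFin h)) (k - 10 - j))
  else false

lemma colour_erase {j n k : ℕ} (X : Finset (Fin n)) (hX : X.card = k + 1) (m : Fin (k + 1)) :
    colour j n k (X.erase (X.orderEmbOfFin hX m)) =
      F (state j (seqF (X.orderEmbOfFin hX ∘ m.succAbove)) 9)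
        (state j (seqF (X.orderEmbOfFin hX ∘ m.succAbove)) (k - 10 - j)) := by
  have hmem : X.orderEmbOfFin hX m ∈ X := Finset.orderEmbOfFin_mem _ _ _
  have hc : (X.erase (X.orderEmbOfFin hX m)).card = k := by
    rw [Finset.card_erase_of_mem hmem, hX]; rfl
  have he : (X.orderEmbOfFin hX ∘ m.succAbove : Fin k → Fin n) =
      (X.erase (X.orderEmbOfFin hX m)).orderEmbOfFin hc := by
    apply Finset.orderEmbOfFin_unique hc
    · intro x
      rw [Finset.mem_erase]
      refine ⟨?_, Finset.orderEmbOfFin_mem _ _ _⟩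
      intro h
      exact Fin.succAbove_ne m x ((X.orderEmbOfFin hX).injective h)
    · exact (X.orderEmbOfFin hX).strictMono.comp (Fin.strictMono_succAbove m)
  unfold colour
  rw [dif_pos hc, he]

/-- No `(k+1)`-set is monochromatic. -/
theorem no_mono (j n k : ℕ) (hn : n ≤ u j) (hk : 2 * (j + 19) ≤ k) (X : Finset (Fin n))
    (hX : X.card = k + 1) (b : Bool) :
    ¬ ∀ e ⊆ X, e.card = k → colour j n k e = b := by
  intro hall
  set e := X.orderEmbOfFin hX with he
  have hval : ∀ m : Fin (k + 1), colour j n k (X.erase (e m)) = b := by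
    intro m
    apply hall _ (Finset.erase_subset _ _)
    rw [Finset.card_erase_of_mem (Finset.orderEmbOfFin_mem _ _ _), hX]; rfl
  simp only [he, colour_erase] at hval
  rw [← he] at hval
  set x : ℤ → ℕ := seqF (e : Fin (k + 1) → Fin n) with hx
  -- the basic facts on `x`
  have hxlt : ∀ t : ℤ, 0 ≤ t → t < k + 1 → x t < u j := by
    intro t h0 h1
    rw [hx, seqF_of _ t h0 (by push_cast; omega)]
    exact lt_of_lt_of_le (Fin.is_lt _) hn
  have hxne : ∀ t : ℤ, 0 ≤ t → t < k → x t ≠ x (t + 1) := by
    intro t h0 h1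
    rw [hx, seqF_of _ t h0 (by push_cast; omega), seqF_of _ (t + 1) (by omega) (by push_cast; omega)]
    intro h
    have h2 := e.injective (Fin.ext h)
    have h3 := congrArg Fin.val h2
    simp only at h3
    omega
  -- three facets
  have hmid := hval ⟨j + 19, by omega⟩
  have hfirst := hval 0
  have hlast := hval (Fin.last k)
  have L0 : state j (seqF (e ∘ (Fin.succAbove 0))) 9 = state j x 10 := by
    apply state_local
    intro s h1 h2
    rw [seqF_succAbove _ _ _ (by omega) (by push_cast; omega), if_neg (by simp; omega)]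
    congr 1; ring
  have R0 : state j (seqF (e ∘ (Fin.succAbove 0))) (k - 10 - j) = state j x (k - 10 - j + 1) := by
    apply state_local
    intro s h1 h2
    rw [seqF_succAbove _ _ _ (by omega) (by push_cast; omega), if_neg (by simp; omega)]
    congr 1; ring
  have LL : state j (seqF (e ∘ (Fin.succAbove (Fin.last k)))) 9 = state j x 9 := by
    apply state_local
    intro s h1 h2
    rw [seqF_succAbove _ _ _ (by omega) (by push_cast; omega), if_pos (by simp; omega)]
  have RL : state j (seqF (e ∘ (Fin.succAbove (Fin.last k)))) (k - 10 - j) =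
      state j x (k - 10 - j) := by
    apply state_local
    intro s h1 h2
    rw [seqF_succAbove _ _ _ (by omega) (by push_cast; omega), if_pos (by simp; omega)]
  have LM : state j (seqF (e ∘ (Fin.succAbove ⟨j + 19, by omega⟩))) 9 = state j x 9 := by
    apply state_local
    intro s h1 h2
    rw [seqF_succAbove _ _ _ (by omega) (by push_cast; omega), if_pos (by push_cast; omega)]
  have RM : state j (seqF (e ∘ (Fin.succAbove ⟨j + 19, by omega⟩))) (k - 10 - j) =
      state j x (k - 10 - j + 1) := by
    apply state_local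
    intro s h1 h2
    rw [seqF_succAbove _ _ _ (by omega) (by push_cast; omega), if_neg (by push_cast; omega)]
    congr 1; ring
  rw [L0, R0] at hfirst
  rw [LL, RL] at hlast
  rw [LM, RM] at hmid
  have E1 : Edge (state j x 9) (state j x 10) = true := by
    apply state_edge
    · intro t h1 h2; exact hxlt t (by omega) (by omega)
    · intro t h1 h2; exact hxne t (by omega) (by omega)
  have E2 : Edge (state j x (k - 10 - j)) (state j x (k - 10 - j + 1)) = true := by
    apply state_edge
    · intro t h1 h2; exact hxlt t (by omega) (by omega)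
    · intro t h1 h2; exact hxne t (by omega) (by omega)
  exact F_spec _ _ _ _ E1 E2 ⟨by rw [hmid, hfirst], by rw [hmid, hlast]⟩

end Pool.Agent.H119R2.Lower
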