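import Mathlib

set_option autoImplicit false

namespace Pool.Agent.H119R2.Upper

variable {α : Type*} [LinearOrder α]

/-- Erdős–Rado: end-homogeneous subsets. -/
lemma endHomog (χ : Finset α → Bool) (m : ℕ) : ∀ (P S : Finset α),
    (∀ p ∈ P, ∀ s ∈ S, p < s) →
    (∀ A ⊆ P, ∀ y ∈ S, ∀ y' ∈ S, χ (insert y A) = χ (insert y' A)) →
    2 ^ ((m + 1) * 2 ^ (P.card + m + 1)) ≤ S.card →
    ∃ X ⊆ S, X.card = m ∧ ∀ A ⊆ P ∪ X, ∀ y ∈ X, ∀ y' ∈ X, (∀ a ∈ A, a < y) → (∀ a ∈ A, a < y') →
      χ (insert y A) = χ (insert y' A) := by
  induction m with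
  | zero =>
    intro P S _ _ _
    exact ⟨∅, by simp, by simp, by simp⟩
  | succ m ih =>
    intro P S hPS hhom hcard
    have hSne : S.Nonempty := by
      rw [← Finset.card_pos]
      exact lt_of_lt_of_le (by positivity) hcard
    set p := S.min' hSne with hp
    have hpS : p ∈ S := Finset.min'_mem _ _
    have hpP : p ∉ P := fun h => lt_irrefl p (hPS p h p hpS)
    set S1 := S.erase p with hS1
    set P1 := insert p P with hP1
    have hP1card : P1.card = P.card + 1 := Finset.card_insert_of_notMem hpP
    have hS1card : S1.card = S.card - 1 := Finset.card_erase_of_mem hpS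
    -- pigeonhole
    let f : α → (Finset (Finset α)) := fun y => P1.powerset.filter (fun A => χ (insert y A) = true)
    have hmaps : ∀ y ∈ S1, f y ∈ P1.powerset.powerset := by
      intro y _
      rw [Finset.mem_powerset]
      exact Finset.filter_subset _ _
    have hnum : P1.powerset.powerset.card = 2 ^ 2 ^ (P.card + 1) := by
      rw [Finset.card_powerset, Finset.card_powerset, hP1card]
    have hbig : P1.powerset.powerset.card * 2 ^ ((m + 1) * 2 ^ (P1.card + m + 1)) ≤ S1.card := by
      rw [hnum, hP1card, hS1card]
      have e1 : 2 ^ 2 ^ (P.card + 1) * 2 ^ ((m + 1) * 2 ^ (P.card + 1 + m + 1)) + 1 ≤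
          2 ^ ((m + 1 + 1) * 2 ^ (P.card + (m + 1) + 1)) := by
        rw [← pow_add]
        have e2 : (m + 1 + 1) * 2 ^ (P.card + (m + 1) + 1) =
            2 ^ (P.card + (m + 1) + 1) + (m + 1) * 2 ^ (P.card + 1 + m + 1) := by
          have : P.card + (m + 1) + 1 = P.card + 1 + m + 1 := by ring
          rw [this]; ring
        have e3 : 2 ^ (P.card + 1) + 1 ≤ 2 ^ (P.card + (m + 1) + 1) := by
          have h4 : 2 ^ (P.card + 1) + 2 ^ (P.card + 1) = 2 ^ (P.card + 2) := by ring
          have h5 : 1 ≤ 2 ^ (P.card + 1) := Nat.one_le_two_pow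
          have h6 : 2 ^ (P.card + 2) ≤ 2 ^ (P.card + (m + 1) + 1) :=
            Nat.pow_le_pow_right (by norm_num) (by omega)
          omega
        have e4 : 2 ^ (P.card + 1) + (m + 1) * 2 ^ (P.card + 1 + m + 1) + 1 ≤
            (m + 1 + 1) * 2 ^ (P.card + (m + 1) + 1) := by
          rw [e2]; omega
        have e5 : 2 ^ (2 ^ (P.card + 1) + (m + 1) * 2 ^ (P.card + 1 + m + 1)) + 1 ≤
            2 ^ (2 ^ (P.card + 1) + (m + 1) * 2 ^ (P.card + 1 + m + 1) + 1) :=
          Nat.pow_lt_pow_right (by norm_num) (Nat.lt_succ_self _)
        exact e5.trans (Nat.pow_le_pow_right (by norm_num) e4)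
      exact Nat.le_sub_of_add_le (le_trans e1 hcard)
    obtain ⟨T, hT, hTcard⟩ := Finset.exists_le_card_fiber_of_mul_le_card_of_maps_to hmaps
      ⟨∅, by simp⟩ hbig
    set S2 := S1.filter (fun y => f y = T) with hS2
    have hS2S1 : S2 ⊆ S1 := Finset.filter_subset _ _
    have hS1S : S1 ⊆ S := Finset.erase_subset _ _
    have hlt : ∀ s ∈ S1, p < s := by
      intro s hs
      have h1 : p ≤ s := Finset.min'_le _ _ (hS1S hs)
      exact lt_of_le_of_ne h1 (Finset.ne_of_mem_erase hs).symm
    have hA1 : ∀ q ∈ P1, ∀ s ∈ S2, q < s := by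
      intro q hq s hs
      rw [hP1, Finset.mem_insert] at hq
      rcases hq with rfl | hq
      · exact hlt s (hS2S1 hs)
      · exact hPS q hq s (hS1S (hS2S1 hs))
    have hA2 : ∀ A ⊆ P1, ∀ y ∈ S2, ∀ y' ∈ S2, χ (insert y A) = χ (insert y' A) := by
      intro A hA y hy y' hy'
      have h1 : f y = T := (Finset.mem_filter.1 hy).2
      have h2 : f y' = T := (Finset.mem_filter.1 hy').2
      have h3 : f y = f y' := h1.trans h2.symm
      have h4 : A ∈ P1.powerset := Finset.mem_powerset.2 hA
      have h5 : (A ∈ f y) ↔ (A ∈ f y') := by rw [h3]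
      simp only [f, Finset.mem_filter, h4, true_and] at h5
      exact Bool.eq_iff_iff.2 h5
    obtain ⟨X, hXS, hXcard, hX⟩ := ih P1 S2 hA1 hA2 hTcard
    · have hpX : p ∉ X := fun h => Finset.notMem_erase p S (hS2S1 (hXS h))
      refine ⟨insert p X, ?_, ?_, ?_⟩
      · intro z hz
        rw [Finset.mem_insert] at hz
        rcases hz with rfl | hz
        · exact hpS
        · exact hS1S (hS2S1 (hXS hz))
      · rw [Finset.card_insert_of_notMem hpX, hXcard]
      · have hsub : ∀ A ⊆ P ∪ insert p X, (∀ a ∈ A, a < p) → A ⊆ P := by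
          intro A hA hAp a ha
          have := hA ha
          rw [Finset.mem_union, Finset.mem_insert] at this
          rcases this with h | h | h
          · exact h
          · exact absurd (hAp a ha) (by rw [h]; exact lt_irrefl _)
          · exact absurd (hAp a ha) (not_lt.2 (hlt a (hS2S1 (hXS h))).le)
        intro A hA y hy y' hy' hAy hAy'
        have hinS : ∀ z ∈ insert p X, z ∈ S := by
          intro z hz
          rw [Finset.mem_insert] at hz
          rcases hz with rfl | hz
          · exact hpS
          · exact hS1S (hS2S1 (hXS hz))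
        by_cases h1 : y = p
        · subst h1
          exact hhom A (hsub A hA hAy) _ hpS y' (hinS y' hy')
        · by_cases h2 : y' = p
          · subst h2
            exact hhom A (hsub A hA hAy') y (hinS y hy) _ hpS
          · have hyX : y ∈ X := (Finset.mem_insert.1 hy).resolve_left h1
            have hyX' : y' ∈ X := (Finset.mem_insert.1 hy').resolve_left h2
            apply hX A _ y hyX y' hyX' hAy hAy'
            intro a ha
            have := hA ha
            rw [Finset.mem_union, Finset.mem_insert] at this
            rw [Finset.mem_union, hP1, Finset.mem_insert]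
            tauto

/-- the bound of the Erdős–Rado recursion -/
def ER : ℕ → ℕ
  | 0 => 2
  | (k + 1) => 2 ^ ((ER k + 1 + 1) * 2 ^ (0 + (ER k + 1) + 1))

/-- Every `2`-colouring of the `k`-subsets of a set with `ER k` elements has a monochromatic
`(k+1)`-subset (`k ≥ 1`). -/
theorem ramsey_upper (k : ℕ) : ∀ (χ : Finset α → Bool) (S : Finset α), 1 ≤ k → ER k ≤ S.card →
    ∃ b : Bool, ∃ Z ⊆ S, Z.card = k + 1 ∧ ∀ e ⊆ Z, e.card = k → χ e = b := by
  induction k with
  | zero => intro χ S h; omega
  | succ k ih =>
    intro χ S _ hS
    rcases Nat.eq_zero_or_pos k with hk | hk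
    · -- k + 1 = 1
      subst hk
      -- pigeonhole among three elements
      have h3 : 2 < S.card := by
        refine lt_of_lt_of_le ?_ hS
        norm_num [ER]
      obtain ⟨a, ha, b, hb, c, hc, hab, hac, hbc⟩ := Finset.two_lt_card.1 h3
      have key : ∀ x y : α, x ∈ S → y ∈ S → x ≠ y → χ {x} = χ {y} →
          ∃ b : Bool, ∃ Z ⊆ S, Z.card = 0 + 1 + 1 ∧ ∀ e ⊆ Z, e.card = 0 + 1 → χ e = b := by
        intro x y hx hy hxy hχ
        refine ⟨χ {x}, {x, y}, ?_, ?_, ?_⟩
        · intro z hz
          simp only [Finset.mem_insert, Finset.mem_singleton] at hz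
          rcases hz with rfl | rfl <;> assumption
        · rw [Finset.card_pair hxy]
        · intro e he hcard
          obtain ⟨z, rfl⟩ := Finset.card_eq_one.1 hcard
          have := he (Finset.mem_singleton_self z)
          simp only [Finset.mem_insert, Finset.mem_singleton] at this
          rcases this with rfl | rfl
          · rfl
          · exact hχ.symm
      by_cases h1 : χ {a} = χ {b}
      · exact key a b ha hb hab h1
      · by_cases h2 : χ {a} = χ {c}
        · exact key a c ha hc hac h2
        · refine key b c hb hc hbc ?_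
          revert h1 h2
          cases χ {a} <;> cases χ {b} <;> cases χ {c} <;> simp
    · set χ1 : Finset α → Bool := fun e => if e.card = k + 1 then χ e else false with hχ1
      obtain ⟨X, hXS, hXcard, hX⟩ := endHomog χ1 (ER k + 1) ∅ S (by simp) (by
        intro A hA y hy y' hy'
        have hA0 : A = ∅ := Finset.subset_empty.1 hA
        subst hA0
        have h1 : ¬ (k = 0) := by omega
        simp [hχ1, h1]) (by simpa [ER] using hS)
      have hXne : X.Nonempty := by
        rw [← Finset.card_pos, hXcard]; omega
      set y := X.max' hXne with hy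
      have hyX : y ∈ X := Finset.max'_mem _ _
      set X' := X.erase y with hX'
      have hX'card : X'.card = ER k := by
        rw [hX', Finset.card_erase_of_mem hyX, hXcard]; rfl
      have hlt : ∀ a ∈ X', a < y := by
        intro a ha
        exact lt_of_le_of_ne (Finset.le_max' _ _ (Finset.mem_of_mem_erase ha))
          (Finset.ne_of_mem_erase ha)
      obtain ⟨b, Z, hZX', hZcard, hZ⟩ := ih (fun A => χ (insert y A)) X' hk hX'card.ge
      have hyZ : y ∉ Z := fun h => lt_irrefl _ (hlt y (hZX' h))
      refine ⟨b, insert y Z, ?_, ?_, ?_⟩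
      · intro z hz
        rw [Finset.mem_insert] at hz
        rcases hz with rfl | hz
        · exact hXS hyX
        · exact hXS (Finset.mem_of_mem_erase (hZX' hz))
      · rw [Finset.card_insert_of_notMem hyZ, hZcard]
      · intro e he hecard
        have hene : e.Nonempty := by
          rw [← Finset.card_pos, hecard]; omega
        set w := e.max' hene with hw
        have hwe : w ∈ e := Finset.max'_mem _ _
        set A := e.erase w with hA
        have hAcard : A.card = k := by
          rw [hA, Finset.card_erase_of_mem hwe, hecard]; rfl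
        have hins : insert w A = e := Finset.insert_erase hwe
        have hAw : ∀ a ∈ A, a < w := by
          intro a ha
          exact lt_of_le_of_ne (Finset.le_max' _ _ (Finset.mem_of_mem_erase ha))
            (Finset.ne_of_mem_erase ha)
        have hZX : ∀ z ∈ insert y Z, z ∈ X := by
          intro z hz
          rw [Finset.mem_insert] at hz
          rcases hz with rfl | hz
          · exact hyX
          · exact Finset.mem_of_mem_erase (hZX' hz)
        have hwX : w ∈ X := hZX w (he hwe)
        have hwy : w ≤ y := Finset.le_max' _ _ hwX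
        have hAy : ∀ a ∈ A, a < y := fun a ha => lt_of_lt_of_le (hAw a ha) hwy
        have hAZ : A ⊆ Z := by
          intro a ha
          have h1 := he (Finset.mem_of_mem_erase ha)
          rw [Finset.mem_insert] at h1
          rcases h1 with h1 | h1
          · exact absurd (hAy a ha) (by rw [h1]; exact lt_irrefl _)
          · exact h1
        have hAX : A ⊆ ∅ ∪ X := by
          intro a ha
          rw [Finset.mem_union]
          exact Or.inr (Finset.mem_of_mem_erase (hZX' (hAZ ha)))
        have h2 := hX A hAX w hwX y hyX hAw hAy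
        have hyA : y ∉ A := fun h => hyZ (hAZ h)
        have hwA : w ∉ A := Finset.notMem_erase _ _
        have c1 : (insert w A).card = k + 1 := by
          rw [Finset.card_insert_of_notMem hwA, hAcard]
        have c2 : (insert y A).card = k + 1 := by
          rw [Finset.card_insert_of_notMem hyA, hAcard]
        simp only [hχ1, c1, c2, if_true] at h2
        rw [← hins, h2]
        exact hZ A hAZ hAcard

end Pool.Agent.H119R2.Upper
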